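import Pool.Agent.TInf.ConfU

/-!
# Configurations with several pairs of equal ratios

Some of the numbers `B j ² / α j ³` may be equal; only square roots `β j` with equal quotients
`β j / B j` for such indices are admissible.
-/

set_option autoImplicit false

noncomputable section

namespace Pool.Agent.KW

open Pool.Agent.TInf Polynomial

variable {K : Type*} [Field K] {n : ℕ}

/-- the cubics are nondegenerate -/
structure NdU (α B : Fin n → K) : Prop where
  hα : ∀ j, α j ≠ 0
  hB : ∀ j, B j ≠ 0
  disc : ∀ j, B j ^ 2 ≠ 4 * α j ^ 3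

/-- the admissible square roots -/
def Adm (α B β : Fin n → K) : Prop :=
  (∀ j, β j ^ 2 = α j ^ 3) ∧
    ∀ i j, B i ^ 2 * α j ^ 3 = B j ^ 2 * α i ^ 3 → β i * B j = β j * B i

/-- There is a good configuration with the state `M` for every ordering and all admissible square
roots (and all denominators in the formulas for the `T` are not zero). -/
def FullU (α B : Fin n → K) (M : Mq K) : Prop :=
  ∀ (ord : Equiv.Perm (Fin n)) (β : Fin n → K), Adm α B β →
    ∃ T : Fin n → K, (⟨ord, β, T⟩ : Cfg K n).Good α B ∧ (⟨ord, β, T⟩ : Cfg K n).M B = M ∧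
      GdP ((⟨ord, β, T⟩ : Cfg K n).sides B)

variable {α B : Fin n → K}

variable [CharZero K]

lemma Cfg.side_ndU (h : NdU α B) {c : Cfg K n} (hc : c.Good α B) (j : Fin n) :
    (c.side B j).Nd := by
  refine ⟨?_, ?_, ?_⟩
  · rw [Cfg.side_b]
    exact div_ne_zero (neg_ne_zero.mpr (h.hB j)) two_ne_zero
  · rw [Cfg.side_g]
    intro h0
    have := hc.1 j
    rw [h0, zero_pow two_ne_zero] at this
    exact pow_ne_zero 3 (h.hα j) this.symm
  · rw [Cfg.side_D hc]
    exact div_ne_zero (sub_ne_zero.mpr (h.disc j)) (by norm_num)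

lemma Cfg.sides_ndU (h : NdU α B) {c : Cfg K n} (hc : c.Good α B) :
    ∀ s ∈ c.sides B, s.Nd := by
  intro s hs
  obtain ⟨j, rfl⟩ := Cfg.mem_sides hs
  exact Cfg.side_ndU h hc j

/-- uniqueness, if the denominators are not zero for one configuration -/
theorem cfg_unique_of_gdP (h : NdU α B) {c c' : Cfg K n} (hc : c.Good α B)
    (hG : GdP (c.sides B)) (hc' : c'.Good α B) (ho : c'.ord = c.ord) (hβ : c'.β = c.β)
    (hM : c'.M B = c.M B) : c' = c := by
  refine Cfg.ext_sides (B := B) ho hβ ?_
  refine st_uniqueP (Cfg.sides_ndU h hc) hG (Cfg.sides_good hc') ?_ ?_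
  · simp only [Cfg.sides, List.map_map]
    refine List.map_congr_left fun a _ => ?_
    simp only [Function.comp_apply, Side.pm, Cfg.side, ho, hβ]
  · rw [← Cfg.M_eq, ← Cfg.M_eq, hM]

/-- uniqueness -/
theorem cfg_uniqueU (h : NdU α B) {M : Mq K} (hF : FullU α B M) {c c' : Cfg K n}
    (hc : c.Good α B) (hc' : c'.Good α B) (hA : Adm α B c.β) (ho : c'.ord = c.ord)
    (hβ : c'.β = c.β) (hM : c.M B = M) (hM' : c'.M B = M) : c' = c := by
  obtain ⟨T, hg, hT, hG⟩ := hF c.ord c.β hA
  rw [cfg_unique_of_gdP h hg hG hc' ho hβ (by rw [hM', hT]),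
    cfg_unique_of_gdP h hg hG hc rfl rfl (by rw [hM, hT])]

/-- the denominators are not zero -/
theorem Cfg.gdPU (h : NdU α B) {M : Mq K} (hF : FullU α B M) {c : Cfg K n}
    (hc : c.Good α B) (hA : Adm α B c.β) (hM : c.M B = M) : GdP (c.sides B) := by
  obtain ⟨T, hg, hT, hG⟩ := hF c.ord c.β hA
  rwa [cfg_unique_of_gdP h hg hG hc rfl rfl (by rw [hM, hT])]

/-! ### Lists of sides with several classes of equal ratios -/

/-- no backtracking for pairs of sides with equal ratios -/
def NbkM (l : List (Side K)) : Prop :=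
  l.Pairwise fun s s' => s.p * s'.m = s'.p * s.m → bk s s' ≠ 0

/-- the state is invertible at `s.th` -/
theorem ne_inner {s : Side K} (hs : s.Good) (hn : s.Nd) {M : Mq K} (hq : M.q.eval s.th ≠ 0) :
    den s (push s M) ≠ 0 ∨ den' s (push s M) ≠ 0 := by
  by_contra hcon
  rw [not_or, not_ne_iff, not_ne_iff] at hcon
  obtain ⟨h1, h2⟩ := hcon
  apply hq
  have hk : s.b * s.g / s.D ≠ 0 := div_ne_zero (mul_ne_zero hn.b hn.g) hn.D
  unfold den at h1
  unfold den' at h2
  have ha : (push s M).a.eval s.th = 0 := by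
    have : (2 : K) * (push s M).a.eval s.th = 0 := by linear_combination h1 + h2
    exact (mul_eq_zero.1 this).resolve_left two_ne_zero
  have ht : (push s M).t.eval s.th = 0 := by
    rw [ha, zero_add] at h2
    exact (mul_eq_zero.1 h2).resolve_left hk
  exact q_zero_of_push_zero hs hn M ha ht

/-- first the sides with the same ratio, then the others -/
theorem ne_first : ∀ (C : List (Side K)) (s : Side K) (R : List (Side K)),
    (∀ t ∈ s :: (C ++ R), t.Nd) → (∀ t ∈ s :: (C ++ R), t.Good) →
    (∀ t ∈ C, s.p * t.m = t.p * s.m) → NbkM (s :: (C ++ R)) → (∀ t ∈ R, t.th ≠ s.th) →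
    den s (st (s :: (C ++ R))) ≠ 0 ∨ den' s (st (s :: (C ++ R))) ≠ 0
  | [], s, R, hn, hg, _, _, hR => by
    rw [List.nil_append, st_cons]
    refine ne_inner (hg s List.mem_cons_self) (hn s List.mem_cons_self) ?_
    refine q_ne (fun t ht => hg t (List.mem_cons_of_mem _ ?_))
      (fun t ht => hn t (List.mem_cons_of_mem _ ?_)) hR
    · exact ht
    · exact ht
  | s₁ :: C, s, R, hn, hg, hC, hb, hR => by
    have hs := hg s List.mem_cons_self
    have hns := hn s List.mem_cons_self
    have hs₁ := hg s₁ (List.mem_cons_of_mem _ List.mem_cons_self)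
    have hns₁ := hn s₁ (List.mem_cons_of_mem _ List.mem_cons_self)
    have hz := hC s₁ List.mem_cons_self
    have hb' := List.pairwise_cons.1 hb
    have hbk := hb'.1 s₁ List.mem_cons_self hz
    obtain ⟨e1, e2⟩ := th_eq hns hns₁ hz
    have h3 := ne_first C s₁ R (fun t ht => hn t (List.mem_cons_of_mem _ ht))
      (fun t ht => hg t (List.mem_cons_of_mem _ ht)) (fun t ht => by
        have h4 := hC t (List.mem_cons_of_mem _ ht)
        have hp : s.p ≠ 0 := left_ne_zero_of_mul hns.D
        have hm : s.m ≠ 0 := right_ne_zero_of_mul hns.D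
        apply mul_left_cancel₀ (mul_ne_zero hp hm)
        linear_combination (s.m * s₁.p) * h4 - (s.m * t.p) * hz) hb'.2
      (fun t ht => by rw [e1]; exact hR t ht)
    have h1 := peel_T hs₁ hns₁ (st (C ++ R))
    have h2 := peel_T' hs₁ hns₁ (st (C ++ R))
    have hd : den s₁ (st (s₁ :: (C ++ R))) = den s (st (s₁ :: (C ++ R))) := by
      rw [den, den, e1, e2]
    have hd' : den' s₁ (st (s₁ :: (C ++ R))) = den' s (st (s₁ :: (C ++ R))) := by
      rw [den', den', e1, e2]
    rw [← st_cons, hd, e1] at h1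
    rw [← st_cons, hd', e1] at h2
    rw [hd, hd'] at h3
    rw [List.cons_append, st_cons]
    exact ne_step hs hs₁ hns hns₁ hz h1 h2 hbk h3

/-- the side with the pair `d` and `T = 0` -/
def sd (d : K × K) : Side K := ⟨d.1, d.2, 0⟩

omit [CharZero K] in
theorem sd_nd {s : Side K} : (sd s.pm).Nd ↔ s.Nd :=
  ⟨fun h => ⟨h.b, h.g, h.D⟩, fun h => ⟨h.b, h.g, h.D⟩⟩

omit [CharZero K] in
theorem sd_th (s : Side K) : (sd s.pm).th = s.th := rfl

omit [CharZero K] in
theorem den_pm {s s' : Side K} (h : s.pm = s'.pm) (M : Mq K) :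
    den s M = den s' M ∧ den' s M = den' s' M := by
  obtain ⟨hp, hm⟩ := Prod.ext_iff.1 h
  change s.p = s'.p at hp
  change s.m = s'.m at hm
  constructor
  · simp only [den, Side.b, Side.g, Side.D, Side.th, hp, hm]
  · simp only [den', Side.b, Side.g, Side.D, Side.th, hp, hm]

/-- If all orders of the sides occur for the state `M`, without backtracking, then all denominators
are different from zero. Reorder the sides such that the sides with the same ratio as the outermost
side follow it (`ne_first`); the outermost side is determined by its pair and the state, so that the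
rest has the same property. -/
theorem gdP_mixed : ∀ (ds : List (K × K)) (M : Mq K), (∀ d ∈ ds, (sd d).Nd) →
    (∀ d ∈ ds, ∀ d' ∈ ds, (sd d').th = (sd d).th → d.1 * d'.2 = d'.1 * d.2) →
    (∀ es : List (K × K), es.Perm ds → ∃ l : List (Side K), l.map Side.pm = es ∧
      (∀ s ∈ l, s.Good) ∧ st l = M ∧ NbkM l) →
    ∀ l : List (Side K), l.map Side.pm = ds → (∀ s ∈ l, s.Good) → st l = M → GdP l
  | [], _, _, _, _, l, hl, _, _ => by
    rw [List.map_eq_nil_iff] at hl
    subst hl
    trivial
  | d :: ds, M, hn, hr, hE, l, hl, hg, hM => by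
    classical
    rcases l with _ | ⟨s, l⟩
    · simp at hl
    rw [List.map_cons, List.cons.injEq] at hl
    obtain ⟨hsd, hl⟩ := hl
    have hs := hg s List.mem_cons_self
    have hns : s.Nd := by
      rw [← sd_nd, hsd]
      exact hn d List.mem_cons_self
    -- the order with the same ratio first
    have hperm : (d :: (ds.filter (fun e => decide (d.1 * e.2 = e.1 * d.2)) ++
        ds.filter (fun e => !decide (d.1 * e.2 = e.1 * d.2)))).Perm (d :: ds) :=
      List.Perm.cons _ (List.filter_append_perm _ ds)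
    obtain ⟨l₁, h1, h2, h3, h4⟩ := hE _ hperm
    rcases l₁ with _ | ⟨s₁, l₁⟩
    · simp at h1
    rw [List.map_cons, List.cons.injEq, List.map_eq_append_iff] at h1
    obtain ⟨h5, C, R, rfl, hC, hR⟩ := h1
    have hnd₁ : ∀ t ∈ s₁ :: (C ++ R), t.Nd := by
      intro t ht
      rw [← sd_nd]
      refine hn _ (hperm.subset ?_)
      have h6 : t.pm ∈ (s₁ :: (C ++ R)).map Side.pm := List.mem_map_of_mem ht
      rwa [List.map_cons, List.map_append, h5, hC, hR] at h6
    have hp5 : s₁.p = d.1 := congrArg Prod.fst h5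
    have hm5 : s₁.m = d.2 := congrArg Prod.snd h5
    have h6 := ne_first C s₁ R hnd₁ h2 (fun t ht => by
      have h7 : t.pm ∈ C.map Side.pm := List.mem_map_of_mem ht
      rw [hC, List.mem_filter] at h7
      have h8 := h7.2
      simp only [decide_eq_true_eq] at h8
      rw [hp5, hm5]
      exact h8) h4 (fun t ht h9 => by
      have h7 : t.pm ∈ R.map Side.pm := List.mem_map_of_mem ht
      rw [hR, List.mem_filter] at h7
      have h8 := h7.2
      simp only [Bool.not_eq_true', decide_eq_false_iff_not] at h8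
      apply h8
      refine hr d List.mem_cons_self _ (List.mem_cons_of_mem _ h7.1) ?_
      rw [sd_th, h9, ← sd_th s₁, h5])
    rw [h3] at h6
    have hpm : s.pm = s₁.pm := hsd.trans h5.symm
    have hP : den s M ≠ 0 ∨ den' s M ≠ 0 := by
      rw [(den_pm hpm M).1, (den_pm hpm M).2]
      exact h6
    refine ⟨?_, hs, by rw [hM]; exact hP⟩
    refine gdP_mixed ds (st l) (fun e he => hn e (List.mem_cons_of_mem _ he))
      (fun e he e' he' => hr e (List.mem_cons_of_mem _ he) e' (List.mem_cons_of_mem _ he')) ?_ l hl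
      (fun t ht => hg t (List.mem_cons_of_mem _ ht)) rfl
    intro es hes
    obtain ⟨l₂, g1, g2, g3, g4⟩ := hE (d :: es) (List.Perm.cons _ hes)
    rcases l₂ with _ | ⟨s₂, l₂⟩
    · simp at g1
    rw [List.map_cons, List.cons.injEq] at g1
    have e : s₂ = s := by
      refine side_eqP hs hns (g2 s₂ List.mem_cons_self) (g1.1.trans hsd.symm)
        (M := st l) (M' := st l₂) ?_ ?_
      · rw [← st_cons, ← st_cons, g3, hM]
      · rw [← st_cons, hM]
        exact hP
    subst e
    refine ⟨l₂, g1.2, fun t ht => g2 t (List.mem_cons_of_mem _ ht), ?_, (List.pairwise_cons.1 g4).2⟩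
    refine push_inj hs hns ?_
    rw [← st_cons, ← st_cons, g3, hM]

end Pool.Agent.KW
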