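import Pool.Agent.TInf.InvU
import Pool.Agent.KW.ConfU

/-!
# Invariance of the classes, with several classes of equal ratios
-/

set_option autoImplicit false

noncomputable section

namespace Pool.Agent.KW

open Pool.Agent.ZCyc Pool.Agent.TInf Polynomial
open Pool.Agent.VFP (Om tt)

universe u

variable {k : Type u} [Field k] [IsAlgClosed k] [CharZero k] {n : ℕ} {W : Type*} [AddCommGroup W]
  [Module ℚ W] {α B : Fin n → k} {f : (Fin n → EPt k) → W}

omit [Module ℚ W] in
private theorem sign_smul_smul {m : ℕ} (o : Equiv.Perm (Fin m)) (x : W) :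
    ((Equiv.Perm.sign o : ℤˣ) : ℤ) • (((Equiv.Perm.sign o : ℤˣ) : ℤ) • x) = x := by
  rw [smul_smul]
  have : ((Equiv.Perm.sign o : ℤˣ) : ℤ) * ((Equiv.Perm.sign o : ℤˣ) : ℤ) = 1 := by
    rcases Int.units_eq_one_or (Equiv.Perm.sign o) with h | h <;> rw [h] <;> norm_num
  rw [this, one_smul]

omit [IsAlgClosed k] in
private theorem V_ne' {s : Side k} (hs : s.Good) : s.V ≠ 0 := by
  obtain ⟨h1, h2, h3⟩ := hs
  exact div_ne_zero (mul_ne_zero h2 h3) (mul_ne_zero two_ne_zero h1)

omit [CharZero k] in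
private theorem exists_roots {v : Fin n → k} (hv : ∀ j, v j ≠ 0) {P : k} (hP : P ^ 6 = ∏ j, v j)
    (hn : 0 < n) : ∃ w : Fin n → k, (∀ j, w j ^ 6 = v j) ∧ ∏ j, w j = P := by
  obtain ⟨i⟩ : Nonempty (Fin n) := ⟨⟨0, hn⟩⟩
  have h1 : ∀ j, ∃ w, w ^ 6 = v j := fun j => IsAlgClosed.exists_pow_nat_eq (v j) (by norm_num)
  choose w hw using h1
  have hw0 : ∀ j, w j ≠ 0 := by
    intro j h
    apply hv j
    rw [← hw j, h]
    norm_num
  have hp0 : ∏ j, w j ≠ 0 := Finset.prod_ne_zero_iff.2 fun j _ => hw0 j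
  have hp6 : (∏ j, w j) ^ 6 = P ^ 6 := by
    rw [← Finset.prod_pow, hP]
    exact Finset.prod_congr rfl fun j _ => hw j
  refine ⟨Function.update w i (P / (∏ j, w j) * w i), ?_, ?_⟩
  · intro j
    rcases eq_or_ne j i with rfl | hj
    · rw [Function.update_self, mul_pow, div_pow, hp6, div_self, one_mul, hw]
      rw [← hp6]
      exact pow_ne_zero 6 hp0
    · rw [Function.update_of_ne hj, hw]
  · rw [Finset.prod_update_of_mem (Finset.mem_univ i)]
    have h2 : w i * ∏ j ∈ Finset.univ \ {i}, w j = ∏ j, w j := by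
      rw [← Finset.prod_update_of_mem (Finset.mem_univ i), Function.update_eq_self]
    rw [mul_assoc, h2, div_mul_cancel₀ _ hp0]

/-- If the class is not zero then there is no backtracking for any order and any square roots. -/
theorem nbk_of_ne (hf : ClassFn α B f) {ζ : k} (hζ : IsPrimitiveRoot ζ 3) (h : NdU α B)
    {c : Cfg k n} (hc : c.Good α B) {w : Fin n → k} (hw : ∀ j, w j ^ 6 = (c.side B j).V)
    {l : ZMod 3} (h0 : Sl f ζ α (c.side B) w l ≠ 0) (o : Equiv.Perm (Fin n)) {β : Fin n → k}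
    (hβ : ∀ j, β j ^ 2 = α j ^ 3) :
    ∃ T : Fin n → k, (⟨o, β, T⟩ : Cfg k n).Good α B ∧ (⟨o, β, T⟩ : Cfg k n).M B = c.M B ∧
      NbkM ((⟨o, β, T⟩ : Cfg k n).sides B) := by
  obtain ⟨T, h1, h2, h3⟩ := InvP.all' hf hζ h.hα h.disc hc hw h0 o hβ
  refine ⟨T, h1, h2, ?_⟩
  obtain ⟨d, hd'⟩ : ∃ d : Cfg k n, d = ⟨o, β, T⟩ := ⟨_, rfl⟩
  rw [← hd'] at h1 h2 h3 ⊢
  rw [NbkM, Cfg.sides, List.pairwise_map]
  refine (List.nodup_finRange n).imp fun {a b} hab => ?_
  have hij : d.ord a ≠ d.ord b := fun e => hab (d.ord.injective e)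
  intro hz hbk
  -- sixth roots
  have hP : (∏ j, w j) ^ 6 = ∏ j, (d.side B j).V := by
    have e1 : ∏ j, (d.side B j).V = ∏ j, (c.side B j).V := by
      rw [prod_VU h1, prod_VU hc, h2]
    rw [e1, ← Finset.prod_pow]
    exact Finset.prod_congr rfl fun j _ => hw j
  obtain ⟨w', hw', hwP⟩ := exists_roots (fun j => V_ne' (h1.2 j)) hP a.pos
  have h4 := h3 w' hw' hwP
  have h5 : Sl f ζ α (d.side B) w' l = 0 :=
    back hf hζ (d.side B) h1.2 (fun j => by simp only [Cfg.side]; ring)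
      (fun j => by
        have e1 : (d.side B j).p - (d.side B j).m = 2 * d.β j := by simp only [Cfg.side]; ring
        rw [e1, mul_pow, h1.1 j]
        ring) h.hα
      (fun j => by
        have e1 : (d.side B j).p * (d.side B j).m = (B j ^ 2 - 4 * d.β j ^ 2) / 4 := by
          simp only [Cfg.side]; ring
        rw [e1, h1.1 j]
        exact div_ne_zero (sub_ne_zero.2 (h.disc j)) (by norm_num)) w' hw' hij hz hbk l
  rw [h5] at h4
  apply h0
  have h6 := congrArg (fun x => ((Equiv.Perm.sign c.ord : ℤˣ) : ℤ) •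
    (((Equiv.Perm.sign o : ℤˣ) : ℤ) • x)) h4
  simp only [smul_zero, sign_smul_smul] at h6
  exact h6.symm

omit [Field k] [IsAlgClosed k] [CharZero k] in
/-- a list which is a permutation of the list of the pairs belongs to another order -/
private theorem exists_ord {o : Equiv.Perm (Fin n)} {φ : Fin n → k × k} {es : List (k × k)}
    (h : es.Perm ((List.finRange n).map fun a => φ (o a))) :
    ∃ o' : Equiv.Perm (Fin n), es = (List.finRange n).map fun a => φ (o' a) := by
  classical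
  have hlen : es.length = n := by
    rw [h.length_eq, List.length_map, List.length_finRange]
  obtain ⟨g, hg⟩ : ∃ g : Fin n → k × k, es = List.ofFn g :=
    ⟨fun a => es.get (Fin.cast hlen.symm a), by
      subst hlen
      exact (List.ofFn_get es).symm⟩
  subst hg
  rw [← List.ofFn_eq_map] at h
  have hc : ∀ t, Nonempty ({j // g j = t} ≃ {j // φ (o j) = t}) := by
    intro t
    rw [← Fintype.card_eq, Fintype.card_subtype, Fintype.card_subtype]
    have h1 : ((List.ofFn g : List (k × k)) : Multiset (k × k)) =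
        (List.ofFn fun a => φ (o a) : List (k × k)) := Multiset.coe_eq_coe.2 h
    rw [List.ofFn_eq_map, List.ofFn_eq_map] at h1
    have h2 : (Finset.univ : Finset (Fin n)).val.map g =
        (Finset.univ : Finset (Fin n)).val.map fun a => φ (o a) := h1
    have h3 := congrArg (Multiset.count t) h2
    rw [Multiset.count_map, Multiset.count_map] at h3
    rw [Finset.card_def, Finset.card_def, Finset.filter_val, Finset.filter_val]
    simpa only [eq_comm] using h3
  obtain ⟨σ, hσ⟩ : ∃ σ : Equiv.Perm (Fin n), g = (fun a => φ (o a)) ∘ σ := by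
    refine ⟨(Equiv.sigmaFiberEquiv g).symm.trans
      ((Equiv.sigmaCongrRight fun t => (hc t).some).trans (Equiv.sigmaFiberEquiv _)), ?_⟩
    funext j
    exact ((hc (g j)).some ⟨j, rfl⟩).2.symm
  refine ⟨σ.trans o, ?_⟩
  rw [List.ofFn_eq_map, hσ]
  rfl

/-- If the class of a configuration is not zero, then there are configurations with the same state
for all orderings and admissible square roots, and all denominators are not zero. -/
theorem full_of_neU (hf : ClassFn α B f) {ζ : k} (hζ : IsPrimitiveRoot ζ 3) (h : NdU α B)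
    {c : Cfg k n} (hc : c.Good α B) {w : Fin n → k} (hw : ∀ j, w j ^ 6 = (c.side B j).V)
    {l : ZMod 3} (h0 : Sl f ζ α (c.side B) w l ≠ 0) : FullU α B (c.M B) := by
  intro o β hA
  obtain ⟨T, h1, h2, -⟩ := nbk_of_ne hf hζ h hc hw h0 o hA.1
  refine ⟨T, h1, h2, ?_⟩
  obtain ⟨φ, hφ⟩ : ∃ φ : Fin n → k × k, ∀ j, φ j = (-B j / 2 + β j, -B j / 2 - β j) :=
    ⟨_, fun _ => rfl⟩
  have hpm : ∀ (o' : Equiv.Perm (Fin n)) (T' : Fin n → k),
      ((⟨o', β, T'⟩ : Cfg k n).sides B).map Side.pm =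
        (List.finRange n).map fun a => φ (o' a) := by
    intro o' T'
    rw [Cfg.sides, List.map_map]
    refine List.map_congr_left fun a _ => ?_
    rw [hφ]
    rfl
  have hth : ∀ i j, (sd (φ j)).th = (sd (φ i)).th → (φ i).1 * (φ j).2 = (φ j).1 * (φ i).2 := by
    intro i j hij
    have hi := sub_ne_zero.mpr (h.disc i)
    have hj := sub_ne_zero.mpr (h.disc j)
    have e : ∀ a, (sd (φ a)).th = B a ^ 2 / (B a ^ 2 - 4 * α a ^ 3) := by
      intro a
      have ha := sub_ne_zero.mpr (h.disc a)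
      have e1 : (sd (φ a)).b = -B a / 2 := by
        rw [hφ]
        simp only [sd, Side.b]
        ring
      have e2 : (sd (φ a)).D = (B a ^ 2 - 4 * α a ^ 3) / 4 := by
        rw [hφ, ← hA.1 a]
        simp only [sd, Side.D]
        ring
      rw [Side.th, e1, e2]
      field_simp
      ring
    rw [e, e, div_eq_div_iff hj hi] at hij
    have h4 : (4 : k) ≠ 0 := by norm_num
    have h5 : B i ^ 2 * α j ^ 3 = B j ^ 2 * α i ^ 3 := by
      apply mul_left_cancel₀ h4
      linear_combination hij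
    have h6 := hA.2 i j h5
    rw [hφ, hφ]
    linear_combination -h6
  refine gdP_mixed _ (c.M B) (fun d hd => ?_) (fun d hd d' hd' => ?_) (fun es hes => ?_) _ rfl
    (Cfg.sides_good h1) (by rw [← Cfg.M_eq, h2])
  · obtain ⟨s, hs, rfl⟩ := List.mem_map.1 hd
    rw [sd_nd]
    exact Cfg.sides_ndU h h1 s hs
  · rw [hpm] at hd hd'
    obtain ⟨a, -, rfl⟩ := List.mem_map.1 hd
    obtain ⟨b, -, rfl⟩ := List.mem_map.1 hd'
    exact hth _ _
  · rw [hpm] at hes
    obtain ⟨o', rfl⟩ := exists_ord hes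
    obtain ⟨T', g1, g2, g3⟩ := nbk_of_ne hf hζ h hc hw h0 o' hA.1
    exact ⟨_, hpm o' T', Cfg.sides_good g1, by rw [← Cfg.M_eq, g2], g3⟩

/-- The classes of configurations with admissible square roots and the same state are equal up to
the signs of the orderings. -/
theorem Sl_invU (hf : ClassFn α B f) {ζ : k} (hζ : IsPrimitiveRoot ζ 3) (h : NdU α B)
    {c c' : Cfg k n} (hc : c.Good α B) (hc' : c'.Good α B) (hA : Adm α B c.β)
    (hA' : Adm α B c'.β) (hM : c'.M B = c.M B) {w w' : Fin n → k}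
    (hw : ∀ j, w j ^ 6 = (c.side B j).V) (hw' : ∀ j, w' j ^ 6 = (c'.side B j).V)
    (hP : ∏ j, w' j = ∏ j, w j) (l : ZMod 3) :
    ((Equiv.Perm.sign c'.ord : ℤˣ) : ℤ) • Sl f ζ α (c'.side B) w' l =
      ((Equiv.Perm.sign c.ord : ℤˣ) : ℤ) • Sl f ζ α (c.side B) w l := by
  have key : ∀ {c c' : Cfg k n}, c.Good α B → c'.Good α B → Adm α B c'.β → c'.M B = c.M B →
      ∀ {w w' : Fin n → k}, (∀ j, w j ^ 6 = (c.side B j).V) → (∀ j, w' j ^ 6 = (c'.side B j).V) →
      ∏ j, w' j = ∏ j, w j → Sl f ζ α (c.side B) w l ≠ 0 →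
      ((Equiv.Perm.sign c'.ord : ℤˣ) : ℤ) • Sl f ζ α (c'.side B) w' l =
        ((Equiv.Perm.sign c.ord : ℤˣ) : ℤ) • Sl f ζ α (c.side B) w l := by
    intro c c' hc hc' hA' hM w w' hw hw' hP h0
    obtain ⟨T, h1, h2, h3⟩ := InvP.all' hf hζ h.hα h.disc hc hw h0 c'.ord hc'.1
    have hF := full_of_neU hf hζ h hc hw h0
    have h4 : c' = ⟨c'.ord, c'.β, T⟩ :=
      cfg_uniqueU h hF h1 hc' hA' rfl rfl h2 hM
    have h5 := h3 w' (fun j => by rw [← h4]; exact hw' j) hP
    rw [← h4] at h5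
    rw [h5, sign_smul_smul]
  by_cases h0 : Sl f ζ α (c.side B) w l = 0
  · by_cases h1 : Sl f ζ α (c'.side B) w' l = 0
    · rw [h0, h1, smul_zero, smul_zero]
    · exact (key hc' hc hA hM.symm hw' hw hP.symm h1).symm
  · exact key hc hc' hA' hM hw hw' hP h0

end Pool.Agent.KW
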