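import Pool.Agent.TInf.FamDefs
import Pool.Agent.KW.InvU
import Pool.Agent.KW.ConfLiftU

/-!
# Families of elliptic curves over tuples of points of a base: definitions

A base `D : Base k r n` consists of a set `D.P` of tuples of points over `k` and a set `D.Q` of tuples
of points over `Om k`, with the coefficients of `r n` cubics `y ² = x ³ - 3 α_(i, j) x + B_(i, j)`, and
with the relation `D.At v S s` that `S` has the value `s` at the place `v` (affine coordinates). The
group of the permutations of the numbers `j` acts on `D.P`. `D.Bad v S` means that at the place `v` one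
of the points of `S` tends to a point where one of the discriminants is zero.

This is the version of `Pool.Agent.KFam` where the tuples are not products; several ratios
`B ² / α ³` may be equal.
-/

set_option autoImplicit false

noncomputable section

namespace Pool.Agent.KW

open Pool.Agent.ZCyc Pool.Agent.TInf Polynomial
open Pool.Agent.VFP (Om tt)

universe u

/-- the base -/
structure Base (k : Type u) [Field k] (r n : ℕ) where
  /-- the tuples over `k` -/
  P : Type u
  /-- the tuples over `Om k` -/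
  Q : Type u
  /-- the coefficients `α` -/
  ea : P → Fin r → Fin n → k
  /-- the coefficients `B` -/
  eb : P → Fin r → Fin n → k
  /-- the coefficients `α` over `Om k` -/
  EA : Q → Fin r → Fin n → Om k
  /-- the coefficients `B` over `Om k` -/
  EB : Q → Fin r → Fin n → Om k
  /-- change of the numbers `j` -/
  act : P → Equiv.Perm (Fin n) → P
  /-- the tuple has this value at the place -/
  At : Place k (Om k) → Q → P → Prop
  /-- one of the points tends to a point with singular cubic -/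
  Bad : Place k (Om k) → Q → Prop
  /-- the constant tuple -/
  cst : P → Q
  ea_act : ∀ (s : P) (π : Equiv.Perm (Fin n)) (i : Fin r) (j : Fin n),
    ea (act s π) i j = ea s i (π j)
  eb_act : ∀ (s : P) (π : Equiv.Perm (Fin n)) (i : Fin r) (j : Fin n),
    eb (act s π) i j = eb s i (π j)
  act_one : ∀ s : P, act s 1 = s
  at_al : ∀ (v : Place k (Om k)) (S : Q) (s : P), At v S s → ∀ i j, v.At (EA S i j) (ea s i j)
  at_be : ∀ (v : Place k (Om k)) (S : Q) (s : P), At v S s → ∀ i j, v.At (EB S i j) (eb s i j)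
  cst_at : ∀ (v : Place k (Om k)) (s : P), At v (cst s) s
  cst_al : ∀ (s : P) (i : Fin r) (j : Fin n), EA (cst s) i j = algebraMap k (Om k) (ea s i j)
  cst_be : ∀ (s : P) (i : Fin r) (j : Fin n), EB (cst s) i j = algebraMap k (Om k) (eb s i j)

variable {k : Type u} [Field k] {r n : ℕ}

/-- all points are on the curves -/
def Base.On (D : Base k r n) (s : D.P) (p : Fin r → Fin n → EPt k) : Prop :=
  ∀ i j, EOn (D.ea s i j) (D.eb s i j) (p i j)

/-- all points are on the curves, over `Om k` -/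
def Base.OnQ (D : Base k r n) (S : D.Q) (P : Fin r → Fin n → EPt (Om k)) : Prop :=
  ∀ i j, EOn (D.EA S i j) (D.EB S i j) (P i j)

/-- A system of classes of points of the cubics. -/
structure SysB (D : Base k r n) (W : Type*) [AddCommGroup W] [Module ℚ W] where
  /-- the class -/
  F : D.P → (Fin r → Fin n → EPt k) → W
  /-- the points over `Om k` have a value with this class -/
  Val : Place k (Om k) → D.Q → (Fin r → Fin n → EPt (Om k)) → W → Prop
  perm : ∀ (s : D.P) (p : Fin r → Fin n → EPt k) (π : Equiv.Perm (Fin n)),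
    F (D.act s π) (fun i => p i ∘ π) = (((Equiv.Perm.sign π : ℤˣ) : ℤ) ^ r) • F s p
  odd : ∀ (s : D.P) (p : Fin r → Fin n → EPt k) (i : Fin r) (j : Fin n) (x y : k),
    p i j = some (x, y) →
    F s (Function.update p i (Function.update (p i) j (some (x, -y)))) = -F s p
  inf : ∀ (s : D.P) (p : Fin r → Fin n → EPt k) (i : Fin r) (j : Fin n), p i j = none →
    F s p = 0
  off : ∀ (s : D.P) (p : Fin r → Fin n → EPt k), ¬ D.On s p → F s p = 0
  fin : ∀ (v : Place k (Om k)) (S : D.Q) (P : Fin r → Fin n → EPt (Om k)),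
    D.OnQ S P → ∀ (s : D.P) (p : Fin r → Fin n → EPt k), D.At v S s →
    (∀ i j, EVal v (P i j) (p i j)) → Val v S P (F s p)
  pole : ∀ (v : Place k (Om k)) (S : D.Q) (P : Fin r → Fin n → EPt (Om k)),
    D.OnQ S P → ∀ (i : Fin r) (j : Fin n) (s : D.P), D.At v S s → EVal v (P i j) none →
    Val v S P 0
  sing : ∀ (v : Place k (Om k)) (S : D.Q) (P : Fin r → Fin n → EPt (Om k)),
    D.OnQ S P → D.Bad v S → Val v S P 0
  bridge : ∀ {I : Type} [Fintype I] (w : I → ℚ) (S : I → D.Q)
    (P : I → Fin r → Fin n → EPt (Om k)), (∀ x, D.OnQ (S x) (P x)) → ∀ (c₀ c₁ : k) (C₀ C₁ : W),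
    (∀ v : Place k (Om k), v.At (tt k) c₀ → ∃ C : I → W, (∀ x, Val v (S x) (P x) (C x)) ∧
      ∑ x, w x • C x = C₀) →
    (∀ v : Place k (Om k), v.At (tt k) c₁ → ∃ C : I → W, (∀ x, Val v (S x) (P x) (C x)) ∧
      ∑ x, w x • C x = C₁) → C₀ = C₁

/-- The cubics are nondegenerate, and if two of the numbers `B ² / α ³` are equal then they are equal for
all tuples over `Om k` with this value. -/
structure Base.Gen (D : Base k r n) (s : D.P) : Prop where
  nd : ∀ i, NdU (D.ea s i) (D.eb s i)
  rel : ∀ (i : Fin r) (v : Place k (Om k)) (S : D.Q) (π : Equiv.Perm (Fin n)),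
    D.At v S (D.act s π) → ∀ x y : Fin n,
    D.eb (D.act s π) i x ^ 2 * D.ea (D.act s π) i y ^ 3 =
      D.eb (D.act s π) i y ^ 2 * D.ea (D.act s π) i x ^ 3 →
    D.EB S i x ^ 2 * D.EA S i y ^ 3 = D.EB S i y ^ 2 * D.EA S i x ^ 3

/-- Deformations of the tuple `s`, with the parameters `z ∈ k ^ ρ`. The product of the values of
`α_i`, of `b_i = -B_i / 2` and of `b_i ² - θ_j (b_i ² - α_i ³)` are polynomials in `z` and the
variable `τ`. -/
structure CurveFam (D : Base k r n) (d : Fin r → ℕ) (s : D.P) where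
  /-- the number of parameters -/
  ρ : ℕ
  /-- the norm of `α_i` -/
  nα : Fin r → MvPolynomial (Fin ρ) k[X]
  /-- the norm of `b_i` -/
  nb : Fin r → MvPolynomial (Fin ρ) k[X]
  /-- the norm of `b_i ² - θ_j (b_i ² - α_i ³)` -/
  nθ : Fin r → Fin n → MvPolynomial (Fin ρ) k[X]
  /-- the values of `θ` -/
  θ : Fin n → k
  inj : Function.Injective θ
  ne : ∀ j, θ j ≠ 0
  dα : ∀ i (z : Fin ρ →₀ ℕ), ((nα i).coeff z).natDegree ≤ 2 * d i
  db : ∀ i (z : Fin ρ →₀ ℕ), ((nb i).coeff z).natDegree ≤ 3 * d i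
  dθ : ∀ i j (z : Fin ρ →₀ ℕ), ((nθ i j).coeff z).natDegree ≤ 6 * d i
  zα : ∀ i (z : Fin ρ → k), ((nα i).eval fun m => C (z m)).eval 0 = ∏ j, D.ea s i j
  zb : ∀ i (z : Fin ρ → k), ((nb i).eval fun m => C (z m)).eval 0 = ∏ j, (-D.eb s i j / 2)
  zθ : ∀ i j (z : Fin ρ → k), ((nθ i j).eval fun m => C (z m)).eval 0 =
    ∏ l, ((-D.eb s i l / 2) ^ 2 - θ j * ((-D.eb s i l / 2) ^ 2 - D.ea s i l ^ 3))
  cα : ∀ i, (nα i).eval 0 = C (∏ j, D.ea s i j)
  cb : ∀ i, (nb i).eval 0 = C (∏ j, (-D.eb s i j / 2))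
  cθ : ∀ i j, (nθ i j).eval 0 =
    C (∏ l, ((-D.eb s i l / 2) ^ 2 - θ j * ((-D.eb s i l / 2) ^ 2 - D.ea s i l ^ 3)))
  /-- the value at `δ` of the form at `τ = 0` -/
  u : k
  /-- the value at `δ` of the direction `z` -/
  h : (Fin ρ → k) → k
  u_ne : u ≠ 0
  pts : ∀ z : Fin ρ → k, z ≠ 0 → ∀ τ : Om k, Transcendental k τ →
    (∃ v : Place k (Om k), v.At τ 0) → ∃ S : D.Q,
    (∀ i, ∏ j, D.EA S i j = aeval τ ((nα i).eval fun m => C (z m))) ∧
    (∀ i, ∏ j, (-D.EB S i j / 2) = aeval τ ((nb i).eval fun m => C (z m))) ∧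
    (∀ i j, ∏ l, ((-D.EB S i l / 2) ^ 2 - algebraMap k (Om k) (θ j) *
      ((-D.EB S i l / 2) ^ 2 - D.EA S i l ^ 3)) = aeval τ ((nθ i j).eval fun m => C (z m))) ∧
    (∀ v : Place k (Om k), v.At τ 0 → ∃ π : Equiv.Perm (Fin n), D.At v S (D.act s π)) ∧
    ∀ v : Place k (Om k), ((∃ τ₁ : k, v.At τ τ₁ ∧ u + τ₁ * h z = 0) ∨
      (τ ∉ v.ring ∧ h z = 0)) → D.Bad v S

/-- `Rw` with admissible square roots -/
structure Rz {K : Type*} [Field K] (α B : Fin n → K) (M : Mq K) (P : K) (c : Cfg K n)
    (w : Fin n → K) : Prop extends Rw α B M P c w where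
  adm : Adm α B c.β

open Classical in
/-- The class of the configurations with the states `M i` and the products `P i`; it is zero if there
are none. -/
def Psi {D : Base k r n} {W : Type*} [AddCommGroup W] [Module ℚ W] (Y : SysB D W) (ζ : k)
    (s : D.P) (M : Fin r → Mq k) (P : Fin r → k) (l : Fin r → ZMod 3) : W :=
  if h : ∃ cw : Fin r → Cfg k n × (Fin n → k),
      ∀ i, Rz (D.ea s i) (D.eb s i) (M i) (P i) (cw i).1 (cw i).2 then
    (∏ i, sgz (h.choose i).1.ord) • MSl (Y.F s) ζ (D.ea s)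
      (fun i => (h.choose i).1.side (D.eb s i)) (fun i => (h.choose i).2) l
  else 0

/-- The class for the points `(_, Θ i)` of the curves of the closing sides, and the `W i`. -/
def GG {D : Base k r n} {W : Type*} [AddCommGroup W] [Module ℚ W] (Y : SysB D W) (ζ : k)
    (s : D.P) (M : Fin r → Mq k) (Θ w : Fin r → k) (l : Fin r → ZMod 3) : W :=
  Psi Y ζ s (fun i => (M i).fr ((M i).cT (Θ i) (w i))) w l

open Classical in
/-- The points of the family with the states `M' i`, the square roots `β' i` and the products `P' i`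
(all points are at infinity if there are no configurations). -/
def Pts (ζ : k) (D : Base k r n) (S : D.Q) (M' : Fin r → Mq (Om k))
    (P' : Fin r → Om k) (β' : Fin r → Fin n → Om k) (a : Fin r → Fin n → ZMod 3) :
    Fin r → Fin n → EPt (Om k) :=
  if h : ∃ Tw : Fin r → (Fin n → Om k) × (Fin n → Om k), ∀ i,
      Rw (D.EA S i) (D.EB S i) (M' i) (P' i) ⟨1, β' i, (Tw i).1⟩ (Tw i).2 then
    fun i j => epoint (algebraMap k (Om k) ζ) (D.EA S i j)
      ((⟨1, β' i, (h.choose i).1⟩ : Cfg (Om k) n).side (D.EB S i) j) ((h.choose i).2 j) (a i j)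
  else fun _ _ => none

end Pool.Agent.KW
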