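import Pool.Agent.KW.Defs

/-!
# The square roots over `Om k`
-/

set_option autoImplicit false

noncomputable section

namespace Pool.Agent.KW

open Pool.Agent.ZCyc Pool.Agent.TInf Polynomial
open Pool.Agent.VFP (Om tt)

universe u

/-- admissible square roots exist: `β = γ B`, where `γ` is a square root of `α ³ / B ²` which depends
only on this number -/
theorem exists_adm {K : Type*} [Field K] [IsAlgClosed K] {n : ℕ} {α B : Fin n → K}
    (hα : ∀ j, α j ≠ 0) (hB : ∀ j, B j ≠ 0) : ∃ β : Fin n → K, Adm α B β := by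
  have h1 : ∀ t : K, ∃ z : K, z ^ 2 = t⁻¹ := fun t =>
    IsAlgClosed.exists_pow_nat_eq _ (by norm_num)
  choose γ hγ using h1
  refine ⟨fun j => γ (B j ^ 2 / α j ^ 3) * B j, fun j => ?_, fun i j h => ?_⟩
  · have h2 := hα j
    have h3 := hB j
    rw [mul_pow, hγ, inv_div]
    field_simp
  · have h2 : B i ^ 2 / α i ^ 3 = B j ^ 2 / α j ^ 3 := by
      rw [div_eq_div_iff (pow_ne_zero 3 (hα i)) (pow_ne_zero 3 (hα j))]
      exact h
    simp only [h2]
    ring

variable {k : Type u} [Field k] [IsAlgClosed k] [CharZero k] {r n : ℕ}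

/-- The square roots over `Om k`: admissible square roots have admissible values, because equal
ratios of the values mean equal ratios over `Om k`. -/
theorem exists_beta {D : Base k r n} {s : D.P} (hG : D.Gen s) (i₀ : Fin r) (S : D.Q)
    (h0 : ∀ j, D.EA S i₀ j ≠ 0 ∧ D.EB S i₀ j ≠ 0) :
    ∃ β' : Fin n → Om k, (∀ j, β' j ^ 2 = D.EA S i₀ j ^ 3) ∧
      ∀ (v : Place k (Om k)) (π : Equiv.Perm (Fin n)), D.At v S (D.act s π) →
        ∀ β : Fin n → k, (∀ j, v.At (β' j) (β j)) →
          Adm (D.ea (D.act s π) i₀) (D.eb (D.act s π) i₀) β := by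
  obtain ⟨β', hβ'⟩ := exists_adm (fun j => (h0 j).1) (fun j => (h0 j).2)
  refine ⟨β', hβ'.1, fun v π hS β hβ => ⟨fun j => ?_, fun i j hij => ?_⟩⟩
  · have h2 : v.At (β' j ^ 2) (β j ^ 2) := (hβ j).pow 2
    rw [hβ'.1 j] at h2
    exact h2.unique ((D.at_al v _ _ hS i₀ j).pow 3)
  · have h2 := hβ'.2 i j (hG.rel i₀ v S π hS i j hij)
    have h3 := (hβ i).mul (D.at_be v _ _ hS i₀ j)
    rw [h2] at h3
    exact h3.unique ((hβ j).mul (D.at_be v _ _ hS i₀ i))

end Pool.Agent.KW
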