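import Pool.Agent.KW.Defs
import Pool.Agent.TInf.FamPts

/-!
# The points of the families
-/

set_option autoImplicit false

noncomputable section

namespace Pool.Agent.KW

open Pool.Agent.ZCyc Pool.Agent.TInf Polynomial
open Pool.Agent.VFP (Om tt)

universe u

variable {k : Type u} [Field k] [IsAlgClosed k] [CharZero k] {r n : ℕ} {D : Base k r n}
  {W : Type*} [AddCommGroup W] [Module ℚ W]

/-- `epoint_on` -/
theorem Pts_on {ζ : k} (hζ : IsPrimitiveRoot ζ 3) (S : D.Q) (M' : Fin r → Mq (Om k))
    (P' : Fin r → Om k) (β' : Fin r → Fin n → Om k) (a : Fin r → Fin n → ZMod 3) :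
    D.OnQ S (Pts ζ D S M' P' β' a) := by
  classical
  have hζ' : (algebraMap k (Om k) ζ) ^ 3 = 1 := by rw [← map_pow, hζ.pow_eq_one, map_one]
  unfold Pts
  split_ifs with h
  · intro i j
    have hr := h.choose_spec i
    refine epoint_on hζ' (hr.good.2 j) ?_ ?_ (hr.w6 j) (a i j)
    · simp only [Cfg.side]
      ring
    · have h1 := hr.good.1 j
      simp only [Cfg.side] at h1 ⊢
      linear_combination 4 * h1
  · intro i j
    trivial

end Pool.Agent.KW
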