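import Pool.Agent.KW.PsiEq

/-!
# States with a class different from zero are full
-/

set_option autoImplicit false

noncomputable section

namespace Pool.Agent.KW

open Pool.Agent.ZCyc Pool.Agent.TInf Polynomial
open Pool.Agent.VFP (Om tt)

universe u

variable {k : Type u} [Field k] [IsAlgClosed k] [CharZero k] {r n : ℕ} {D : Base k r n}
  {W : Type*} [AddCommGroup W] [Module ℚ W]

/-- `MSl_eq`, `MSo_class`, `full_of_neU` -/
theorem Psi_full (Y : SysB D W) {ζ : k} (hζ : IsPrimitiveRoot ζ 3) {s : D.P}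
    (hs : ∀ i, NdU (D.ea s i) (D.eb s i)) {M : Fin r → Mq k} {P : Fin r → k}
    {l : Fin r → ZMod 3} (h : Psi Y ζ s M P l ≠ 0) (i : Fin r) :
    FullU (D.ea s i) (D.eb s i) (M i) := by
  unfold Psi at h
  split_ifs at h with h1
  · have h2 := h1.choose_spec
    have h3 : MSl (Y.F s) ζ (D.ea s)
        (fun i => (h1.choose i).1.side (D.eb s i)) (fun i => (h1.choose i).2) l ≠ 0 := by
      intro h0
      apply h
      rw [h0, smul_zero]
    rw [MSl_eq i] at h3
    rw [← (h2 i).st]
    exact full_of_neU (MSo_class (Y.multi s) i ζ _ _ l) hζ (hs i) (h2 i).good (h2 i).w6 h3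
  · exact absurd rfl h

end Pool.Agent.KW
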