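import Pool.Agent.KW.PsiEq
import Pool.Agent.KW.Closing

/-!
# Change of the frame of the closing side
-/

set_option autoImplicit false

noncomputable section

namespace Pool.Agent.KW

open Pool.Agent.ZCyc Pool.Agent.TInf Polynomial
open Pool.Agent.VFP (Om tt)

universe u

variable {k : Type u} [Field k] [IsAlgClosed k] [CharZero k] {r n : ℕ} {D : Base k r n}
  {W : Type*} [AddCommGroup W] [Module ℚ W]

omit [CharZero k] in
private theorem pfl_roots {v : Fin n → k} (hv : ∀ j, v j ≠ 0) {P : k} (hP : P ^ 6 = ∏ j, v j)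
    (hn : 0 < n) : ∃ w : Fin n → k, (∀ j, w j ^ 6 = v j) ∧ ∏ j, w j = P := by
  obtain ⟨i⟩ : Nonempty (Fin n) := ⟨⟨0, hn⟩⟩
  have h1 : ∀ j, ∃ w, w ^ 6 = v j := fun j => IsAlgClosed.exists_pow_nat_eq (v j) (by norm_num)
  choose w hw using h1
  have hw0 : ∀ j, w j ≠ 0 := by
    intro j h
    apply hv j
    rw [← hw j, h]
    norm_num
  have hp0 : ∏ j, w j ≠ 0 := Finset.prod_ne_zero_iff.2 fun j _ => hw0 j
  have hp6 : (∏ j, w j) ^ 6 = P ^ 6 := by
    rw [← Finset.prod_pow, hP]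
    exact Finset.prod_congr rfl fun j _ => hw j
  refine ⟨Function.update w i (P / (∏ j, w j) * w i), ?_, ?_⟩
  · intro j
    rcases eq_or_ne j i with rfl | hj
    · rw [Function.update_self, mul_pow, div_pow, hp6, div_self, one_mul, hw]
      rw [← hp6]
      exact pow_ne_zero 6 hp0
    · rw [Function.update_of_ne hj, hw]
  · rw [Finset.prod_update_of_mem (Finset.mem_univ i)]
    have h2 : w i * ∏ j ∈ Finset.univ \ {i}, w j = ∏ j, w j := by
      rw [← Finset.prod_update_of_mem (Finset.mem_univ i), Function.update_eq_self]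
    rw [mul_assoc, h2, div_mul_cancel₀ _ hp0]

omit [IsAlgClosed k] in
private theorem pfl_V {s : Side k} (hs : s.Good) : s.V ≠ 0 := by
  obtain ⟨h1, h2, h3⟩ := hs
  exact div_ne_zero (mul_ne_zero h2 h3) (mul_ne_zero two_ne_zero h1)

omit [IsAlgClosed k] [CharZero k] in
private theorem pfl_b (M : Mq k) (ρ : k) : (M.rot ρ).b.eval 1 = ρ * M.b.eval 1 := by
  simp [Mq.rot]

omit [IsAlgClosed k] [CharZero k] in
private theorem pfl_c (M : Mq k) (ρ : k) : (M.rot ρ).c.eval 1 = ρ⁻¹ * M.c.eval 1 := by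
  simp [Mq.rot]

omit [IsAlgClosed k] [CharZero k] in
private theorem pfl_rot (M : Mq k) {ρ : k} (hρ : ρ ≠ 0) : (M.rot ρ).rot ρ⁻¹ = M := by
  refine Mq.ext rfl ?_ ?_ rfl
  · change C ρ⁻¹ * (C ρ * M.b) = M.b
    rw [← mul_assoc, ← C_mul, inv_mul_cancel₀ hρ, C_1, one_mul]
  · change C ρ⁻¹⁻¹ * (C ρ⁻¹ * M.c) = M.c
    rw [← mul_assoc, ← C_mul, inv_inv, mul_inv_cancel₀ hρ, C_1, one_mul]

/-- the case where the class is not zero -/
private theorem pfl_flip (Y : SysB D W) {ζ : k} (hζ : IsPrimitiveRoot ζ 3) (hn : 0 < n)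
    {s : D.P} (hs : ∀ i, NdU (D.ea s i) (D.eb s i)) (M : Fin r → Mq k)
    (P : Fin r → k) (l : Fin r → ZMod 3) (i : Fin r) (hne : Psi Y ζ s M P l ≠ 0) :
    Psi Y ζ s (Function.update M i ((M i).rot (-((M i).c.eval 1) / (M i).b.eval 1))) P l =
      -Psi Y ζ s M P l := by
  classical
  have hex : ∃ cw : Fin r → Cfg k n × (Fin n → k),
      ∀ i, Rz (D.ea s i) (D.eb s i) (M i) (P i) (cw i).1 (cw i).2 := by
    by_contra hcon
    apply hne
    unfold Psi
    rw [dif_neg hcon]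
  obtain ⟨cw, h⟩ := hex
  obtain ⟨c, hcd⟩ : ∃ c : Fin r → Cfg k n, c = fun i => (cw i).1 := ⟨_, rfl⟩
  obtain ⟨w, hwd⟩ : ∃ w : Fin r → Fin n → k, w = fun i => (cw i).2 := ⟨_, rfl⟩
  have h' : ∀ i, Rz (D.ea s i) (D.eb s i) (M i) (P i) (c i) (w i) := by
    intro i
    rw [hcd, hwd]
    exact h i
  have h1 := Psi_eq Y hζ hs h' l
  have hf := MSo_class (Y.multi s) i ζ (fun j => (c j).side (D.eb s j)) w l
  have h2 : Sl (MSo i (Y.F s) ζ (D.ea s) (fun j => (c j).side (D.eb s j)) w l) ζ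
      (D.ea s i) ((c i).side (D.eb s i)) (w i) (l i) ≠ 0 := by
    intro h0
    apply hne
    rw [h1, MSl_eq i, h0, smul_zero]
  obtain ⟨hb, hc, -, hg, hM, hall⟩ :=
    closing_side hf hζ (hs i) hn (h' i).good (h' i).w6 h2
  obtain ⟨ρ, hρ⟩ : ∃ ρ, ρ = -(((c i).M (D.eb s i)).c.eval 1 /
    ((c i).M (D.eb s i)).b.eval 1) := ⟨_, rfl⟩
  rw [← hρ] at hg hM hall
  rw [(h' i).st] at hb hc hρ hM
  have hρ' : -((M i).c.eval 1) / (M i).b.eval 1 = ρ := by
    rw [hρ, neg_div]
  rw [hρ']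
  have hρ0 : ρ ≠ 0 := by
    rw [hρ]
    exact neg_ne_zero.2 (div_ne_zero hc hb)
  have hbρ : ρ * (M i).b.eval 1 = -(M i).c.eval 1 := by
    rw [hρ, neg_mul, div_mul_cancel₀ _ hb]
  have hcρ : ρ⁻¹ * (M i).c.eval 1 = -(M i).b.eval 1 := by
    rw [inv_mul_eq_iff_eq_mul₀ hρ0]
    linear_combination hbρ
  have hP : (P i) ^ 6 = ∏ j, (((c i).rotc (D.eb s i) ρ).side (D.eb s i) j).V := by
    rw [prod_VU hg, hM, pfl_b, pfl_c, hbρ, hcρ, ← (h' i).prod, ← Finset.prod_pow,
      Finset.prod_congr rfl fun j _ => (h' i).w6 j, prod_VU (h' i).good, (h' i).st]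
    change (M i).a.eval 1 + _ = (M i).a.eval 1 + _
    ring
  obtain ⟨w', hw', hwP⟩ := pfl_roots (fun j => pfl_V (hg.2 j)) hP hn
  have h3 := hall w' hw' (hwP.trans (h' i).prod.symm)
  have h4 : ∀ j, Rz (D.ea s j) (D.eb s j) (Function.update M i ((M i).rot ρ) j) (P j)
      (Function.update c i ((c i).rotc (D.eb s i) ρ) j) (Function.update w i w' j) := by
    intro j
    rcases eq_or_ne j i with rfl | hj
    · rw [Function.update_self, Function.update_self, Function.update_self]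
      exact ⟨⟨hg, hM, hw', hwP⟩, (h' j).adm⟩
    · rw [Function.update_of_ne hj, Function.update_of_ne hj, Function.update_of_ne hj]
      exact h' j
  rw [Psi_eq Y hζ hs h4 l, h1, MSl_eq i,
    MSl_eq i (Y.F s) ζ (D.ea s) (fun i => (c i).side (D.eb s i)) w l,
    MSo_update i (Y.F s) ζ (D.ea s)
      (fun j => (Function.update c i ((c i).rotc (D.eb s i) ρ) j).side (D.eb s j))
      (fun j => (c j).side (D.eb s j)) (Function.update w i w') w l l
      (fun j hj => by rw [Function.update_of_ne hj]) (fun j hj => Function.update_of_ne hj _ _)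
      (fun _ _ => rfl), Function.update_self, Function.update_self, h3, smul_neg]
  congr 2
  refine Finset.prod_congr rfl fun j _ => ?_
  rcases eq_or_ne j i with rfl | hj
  · rw [Function.update_self]
    rfl
  · rw [Function.update_of_ne hj]

omit [IsAlgClosed k] [CharZero k] in
/-- there are no configurations with `b(1) ≠ 0` for `n = 0` -/
private theorem pfl_zero (Y : SysB D W) (ζ : k) (hn : ¬ 0 < n) (s : D.P)
    (M : Fin r → Mq k) (P : Fin r → k) (l : Fin r → ZMod 3) (i : Fin r)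
    (hb : (M i).b.eval 1 ≠ 0) : Psi Y ζ s M P l = 0 := by
  unfold Psi
  rw [dif_neg]
  rintro ⟨cw, h⟩
  apply hb
  have h0 : n = 0 := by omega
  subst h0
  rw [← (h i).st]
  simp [Cfg.M, Mq.one]

/-- From the relation for the closing side (`TInf/Closing.lean`) for one index `i`, `MSl_eq`,
`MSo_class`, `MSo_update`, `Psi_eq`. If both classes are zero there is nothing to prove; the
operation is an involution: for `M₁ = M.rot ρ`, `ρ = -c(1) / b(1)`, one has
`-c₁(1) / b₁(1) = ρ⁻¹`. -/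
theorem Psi_flip (Y : SysB D W) {ζ : k} (hζ : IsPrimitiveRoot ζ 3) {s : D.P}
    (hs : ∀ i, NdU (D.ea s i) (D.eb s i)) (M : Fin r → Mq k) (P : Fin r → k)
    (l : Fin r → ZMod 3) (i : Fin r) (hb : (M i).b.eval 1 ≠ 0) (hc : (M i).c.eval 1 ≠ 0) :
    Psi Y ζ s (Function.update M i ((M i).rot (-((M i).c.eval 1) / (M i).b.eval 1))) P l =
      -Psi Y ζ s M P l := by
  classical
  obtain ⟨ρ, hρ⟩ : ∃ ρ, ρ = -((M i).c.eval 1) / (M i).b.eval 1 := ⟨_, rfl⟩
  have hρ0 : ρ ≠ 0 := by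
    rw [hρ]
    exact div_ne_zero (neg_ne_zero.2 hc) hb
  have hbρ : ρ * (M i).b.eval 1 = -(M i).c.eval 1 := by
    rw [hρ, div_mul_cancel₀ _ hb]
  have hcρ : ρ⁻¹ * (M i).c.eval 1 = -(M i).b.eval 1 := by
    rw [inv_mul_eq_iff_eq_mul₀ hρ0]
    linear_combination hbρ
  by_cases hn : 0 < n
  · by_cases hne : Psi Y ζ s M P l = 0
    · rw [hne, neg_zero]
      by_contra hne'
      rw [← hρ] at hne'
      have h1 := pfl_flip Y hζ hn hs (Function.update M i ((M i).rot ρ)) P l i hne'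
      rw [Function.update_self, Function.update_idem, pfl_b, pfl_c, hbρ, hcρ] at h1
      have h2 : - -(M i).b.eval 1 / -(M i).c.eval 1 = ρ⁻¹ := by
        rw [hρ, inv_div, neg_neg, div_neg, neg_div']
      rw [h2, pfl_rot _ hρ0, Function.update_eq_self, hne] at h1
      exact hne' (neg_eq_zero.1 h1.symm)
    · exact pfl_flip Y hζ hn hs M P l i hne
  · rw [pfl_zero Y ζ hn s M P l i hb, pfl_zero Y ζ hn s _ P l i, neg_zero]
    rw [Function.update_self, ← hρ, pfl_b, hbρ]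
    exact neg_ne_zero.2 hc

/-- If the closing side of the configuration for the index `i` is degenerate, or has `Sg₀ = 0`, then
the class is zero (`TInf/Closing.lean`). -/
theorem MSl_closing (Y : SysB D W) {ζ : k} (hζ : IsPrimitiveRoot ζ 3) (hn : 0 < n)
    {s : D.P} (hs : ∀ i, NdU (D.ea s i) (D.eb s i)) {c : Fin r → Cfg k n}
    {w : Fin r → Fin n → k}
    (hc : ∀ i, (c i).Good (D.ea s i) (D.eb s i))
    (hw : ∀ i j, w i j ^ 6 = ((c i).side (D.eb s i) j).V) (i : Fin r)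
    (h : ((c i).M (D.eb s i)).b.eval 1 = 0 ∨ ((c i).M (D.eb s i)).c.eval 1 = 0 ∨
      ((c i).M (D.eb s i)).b.eval 1 + ((c i).M (D.eb s i)).c.eval 1 = 0)
    (l : Fin r → ZMod 3) :
    MSl (Y.F s) ζ (D.ea s) (fun i => (c i).side (D.eb s i)) w l = 0 := by
  classical
  by_contra hne
  rw [MSl_eq i] at hne
  have hf := MSo_class (Y.multi s) i ζ (fun j => (c j).side (D.eb s j)) w l
  obtain ⟨h1, h2, h3, -⟩ := closing_side hf hζ (hs i) hn (hc i) (hw i) hne
  rcases h with h | h | h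
  · exact h1 h
  · exact h2 h
  · exact h3 (by linear_combination h)

end Pool.Agent.KW
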