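import Pool.Agent.KW.GGStart
import Pool.Agent.KW.GGEnd
import Pool.Agent.KFam.FamState
import Pool.Agent.KW.FamBeta
import Pool.Agent.TInf.FamInf
import Pool.Agent.TInf.FamRoots
import Pool.Agent.VFP.Conic

/-!
# The sum over the points with the same closing data, for an arbitrary base
-/

set_option autoImplicit false

noncomputable section

namespace Pool.Agent.KW

open Pool.Agent.ZCyc Pool.Agent.TInf Polynomial
open Pool.Agent.VFP (Om tt)

universe u

variable {k : Type u} [Field k] [IsAlgClosed k] [CharZero k] {r n : ℕ} {D : Base k r n}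
  {W : Type*} [AddCommGroup W] [Module ℚ W]

omit [IsAlgClosed k] [CharZero k] in
private theorem mo_eval_one (τ : Om k) (A : k[X][X]) :
    (A.map (aeval τ : k[X] →ₐ[k] Om k).toRingHom).eval 1 = aeval τ (A.eval 1) := by
  have h := pv_eval τ A 1
  rw [map_one, C_1] at h
  exact h

omit [IsAlgClosed k] [CharZero k] in
private theorem at_aeval {v : Place k (Om k)} {τ : Om k} (hτ : v.At τ 0) (p : k[X]) :
    v.At (aeval τ p) (p.eval 0) := by
  induction p using Polynomial.induction_on' with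
  | add p q hp hq =>
    rw [map_add, eval_add]
    exact hp.add hq
  | monomial m a =>
    rw [aeval_monomial, eval_monomial]
    exact (Place.at_const a).mul (hτ.pow m)

omit [CharZero k] in
/-- an algebraic element is a constant -/
private theorem const_of_alg {τ : Om k} (h : ¬ Transcendental k τ) :
    ∃ c : k, algebraMap k (Om k) c = τ := by
  have h1 : IsAlgebraic k τ := by
    by_contra h2
    exact h h2
  have h2 : IsIntegral k τ := h1.isIntegral
  have h3 := IsAlgClosed.degree_eq_one_of_irreducible k (minpoly.irreducible h2)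
  exact minpoly.mem_range_of_degree_eq_one k τ h3

/-- The analogue of `Pool.Agent.TInf.GG_sum`. -/
theorem GG_sum (Y : SysB D W) {d : Fin r → ℕ} {n₀ : ℕ} (hd : ∑ i, d i = 2 * n₀)
    (hn₀ : 0 < n₀) (hn : 0 < n) {ζ : k} (hζ : IsPrimitiveRoot ζ 3) {s : D.P}
    (hs : D.Gen s) (F : CurveFam D d s) (hρ₀ : n₀ ≤ F.ρ) {M : Fin r → Mq k}
    (hSt : ∀ i, IsSt (D.ea s i) (D.eb s i) (M i)) {Ξ Θ : Fin r → k}
    {w : Bool → Fin r → k} (hC : ∀ b i, Clo (D.ea s i) (M i) (Ξ i) (Θ i) (w b i))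
    (hw1 : ∀ i, w false i ^ 2 + w true i ^ 2 = Ξ i)
    (hw2 : ∀ i, w false i ^ 2 * w true i ^ 2 = ∏ j, D.ea s i j) (hΘ : ∀ i, Θ i ≠ 0)
    (l : Fin r → ZMod 3) :
    ∑ κ : Fin r → Bool, GG Y ζ s M Θ (fun i => w (κ i) i) l = 0 := by
  classical
  have hr : 0 < r := by
    rcases Nat.eq_zero_or_pos r with h | h
    · subst h
      simp only [Finset.univ_eq_empty, Finset.sum_empty] at hd
      omega
    · exact h
  obtain ⟨z, A', P', M', G', x', y', q, dA, dP, dM, dG, eA, eP, eM, eG, ex, ey, q0, dq, z0,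
      z1, z2, z3⟩ :=
    Pool.Agent.KFam.krull (N := n) hd hn₀ hρ₀ F.dα F.db F.dθ F.zα F.zb F.zθ F.cα F.cb F.cθ
      (A := fun i => (M i).a) (P := fun i => (M i).b)
      (M := fun i => (M i).c) (G := fun i => (M i).t) (fun i => (hSt i).deg.a)
      (fun i => (hSt i).deg.b) (fun i => (hSt i).deg.c) (fun i => (hSt i).deg.t)
      (x := Ξ) (y := ∏ i, Θ i)
      (Finset.prod_ne_zero_iff.2 fun i _ => hΘ i) F.θ
      (fun i => (hSt i).a0)
      (fun i j => Pool.Agent.KFam.krull_start (hSt i) (F.θ j))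
      (by
        rw [← Finset.prod_pow]
        exact Finset.prod_congr rfl fun i _ => (hC false i).th)
  obtain ⟨τ, ρ, c₀, c₁, hρ, hc₀, hc₁⟩ : ∃ (τ ρ : Om k) (c₀ c₁ : k), ρ ^ 2 = aeval τ q ∧
      (∀ v : Place k (Om k), v.At (tt k) c₀ → v.At τ 0 ∧ v.At ρ 1) ∧
      ∀ v : Place k (Om k), v.At (tt k) c₁ →
        (z ≠ 0 ∧ ((∃ τ₁ : k, v.At τ τ₁ ∧ F.u + τ₁ * F.h z = 0) ∨ (τ ∉ v.ring ∧ F.h z = 0))) ∨
          (z = 0 ∧ τ ∉ v.ring) := by
    by_cases hz : z = 0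
    · obtain ⟨τ, ρ, c₀, c₁, h1, h2, h3⟩ := VFP.conic_inf q dq q0
      exact ⟨τ, ρ, c₀, c₁, h1, h2, fun v hv => Or.inr ⟨hz, h3 v hv⟩⟩
    by_cases hh : F.h z = 0
    · obtain ⟨τ, ρ, c₀, c₁, h1, h2, h3⟩ := VFP.conic_inf q dq q0
      exact ⟨τ, ρ, c₀, c₁, h1, h2, fun v hv => Or.inl ⟨hz, Or.inr ⟨h3 v hv, hh⟩⟩⟩
    · obtain ⟨τ, ρ, c₀, c₁, h1, h2, h3⟩ := VFP.conic q dq q0 (-F.u / F.h z)
        (div_ne_zero (neg_ne_zero.2 F.u_ne) hh)
      refine ⟨τ, ρ, c₀, c₁, h1, h2, fun v hv => Or.inl ⟨hz, Or.inl ⟨_, h3 v hv, ?_⟩⟩⟩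
      rw [div_mul_cancel₀ _ hh, add_neg_cancel]
  obtain ⟨v₀, hv₀⟩ := exists_place (VFP.tt_transc (k := k)) c₀
  obtain ⟨v₁, hv₁⟩ := exists_place (VFP.tt_transc (k := k)) c₁
  -- the points of the base
  obtain ⟨S, p1, p2, p3, p4, p5, p6⟩ : ∃ S : D.Q,
      (∀ i, ∏ j, D.EA S i j = aeval τ ((F.nα i).eval fun m => C (z m))) ∧
      (∀ i, ∏ j, (-D.EB S i j / 2) = aeval τ ((F.nb i).eval fun m => C (z m))) ∧
      (∀ i j, ∏ l, ((-D.EB S i l / 2) ^ 2 - algebraMap k (Om k) (F.θ j) *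
        ((-D.EB S i l / 2) ^ 2 - D.EA S i l ^ 3)) =
          aeval τ ((F.nθ i j).eval fun m => C (z m))) ∧
      (∀ v : Place k (Om k), v.At τ 0 → ∃ π : Equiv.Perm (Fin n), D.At v S (D.act s π)) ∧
      (z = 0 → S = D.cst s) ∧
      (z ≠ 0 → ∀ v : Place k (Om k), ((∃ τ₁ : k, v.At τ τ₁ ∧ F.u + τ₁ * F.h z = 0) ∨
        (τ ∉ v.ring ∧ F.h z = 0)) → D.Bad v S) := by
    by_cases hz : z = 0
    · have hz' : (fun m : Fin F.ρ => (C (z m) : k[X])) = 0 := by
        funext m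
        rw [hz]
        simp
      refine ⟨D.cst s, ?_, ?_, ?_, ?_, fun _ => rfl, fun h => absurd hz h⟩
      · intro i
        rw [hz', F.cα, aeval_C, map_prod]
        exact Finset.prod_congr rfl fun j _ => D.cst_al s i j
      · intro i
        rw [hz', F.cb, aeval_C, map_prod]
        refine Finset.prod_congr rfl fun j _ => ?_
        rw [map_div₀, map_neg, map_ofNat]
        rw [D.cst_be s i j]
      · intro i j
        rw [hz', F.cθ, aeval_C, map_prod]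
        refine Finset.prod_congr rfl fun l _ => ?_
        simp only [map_div₀, map_neg, map_ofNat, map_sub, map_mul, map_pow]
        rw [D.cst_be s i l, D.cst_al s i l]
      · intro v _
        refine ⟨1, ?_⟩
        rw [D.act_one]
        exact D.cst_at v _
    · have htr : Transcendental k τ := by
        by_contra hcon
        obtain ⟨c, hc⟩ := const_of_alg hcon
        have h1 := (hc₀ v₀ hv₀).1
        rw [← hc] at h1
        have h2 : c = 0 := (Place.at_const c).unique h1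
        have h3 : τ = 0 := by rw [← hc, h2, map_zero]
        rcases hc₁ v₁ hv₁ with ⟨-, ⟨τ₁, h4, h5⟩ | ⟨h4, -⟩⟩ | ⟨h4, -⟩
        · rw [h3] at h4
          have h6 : τ₁ = 0 := h4.unique VFP.at_zero
          rw [h6, zero_mul, add_zero] at h5
          exact F.u_ne h5
        · exact h4 (h3 ▸ zero_mem _)
        · exact hz h4
      obtain ⟨S, p1, p2, p3, p4, p5⟩ := F.pts z hz τ htr ⟨v₀, (hc₀ v₀ hv₀).1⟩
      exact ⟨S, p1, p2, p3, p4, fun h => absurd h hz, fun _ => p5⟩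
  obtain ⟨Mo, hMo⟩ : ∃ Mo : Fin r → Mq (Om k), Mo = fun i => mo τ (A' i) (P' i) (M' i) (G' i) :=
    ⟨_, rfl⟩
  have hSt' : ∀ i, IsSt (D.EA S i) (D.EB S i) (Mo i) := by
    intro i
    rw [hMo]
    exact Pool.Agent.KFam.isSt_mo τ F.inj F.ne (dA i) (dP i) (dM i) (dG i) (z0 i) (z1 i) (p2 i) (p3 i)
  obtain ⟨Θ', hΘ'2, hΘ'p⟩ := exists_sqrts hr (y := ρ * aeval τ y')
    (m := fun i => (aeval τ (x' i)) ^ 3 - 3 * (∏ j, D.EA S i j) * aeval τ (x' i) -
      2 * (Mo i).a.eval 1) (by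
      have h1 := congrArg (aeval τ : k[X] →ₐ[k] Om k) z2
      rw [map_mul, map_pow, map_prod, ← hρ, ← mul_pow] at h1
      rw [h1]
      refine Finset.prod_congr rfl fun i _ => ?_
      simp only [map_sub, map_mul, map_pow, map_ofNat, p1]
      rw [hMo]
      simp only [mo, mo_eval_one])
  choose w₀ hw₀1 hw₀2 using fun i => exists_W (aeval τ (x' i)) (∏ j, D.EA S i j)
  obtain ⟨w', hw'⟩ : ∃ w' : Bool → Fin r → Om k, w' = fun b i => w₀ i b := ⟨_, rfl⟩
  have h0 : ∀ i j, D.EA S i j ≠ 0 ∧ D.EB S i j ≠ 0 := by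
    intro i j
    obtain ⟨π, hπ⟩ := p4 v₀ (hc₀ v₀ hv₀).1
    have h1 := Base.ndU_act (hs.nd i) π
    have ne_of : ∀ {x : Om k} {c : k}, v₀.At x c → c ≠ 0 → x ≠ 0 := by
      rintro x c h hc rfl
      exact hc (h.unique VFP.at_zero)
    exact ⟨ne_of (D.at_al v₀ _ _ hπ i j) (h1.hα j), ne_of (D.at_be v₀ _ _ hπ i j) (h1.hB j)⟩
  choose β' hβ' hβA using fun i => exists_beta hs i S (h0 i)
  -- the state at a place above `c₀`
  have hmat : ∀ v : Place k (Om k), v.At (tt k) c₀ → ∀ i, MAt v (Mo i) (M i) := by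
    intro v hv i
    rw [hMo]
    have h1 := mat_mo (hc₀ v hv).1 (A' i) (P' i) (M' i) (G' i)
    rw [eA, eP, eM, eG] at h1
    exact h1
  -- the family
  refine Y.bridge (I := (Fin r → Bool) × (Fin r → Fin n → ZMod 3))
    (fun x => if ∀ i, ∑ j, x.2 i j = l i then (1 : ℚ) else 0) (fun _ => S)
    (fun x => Pts ζ D S (famM Mo Θ' w' x.1) (fun i => w' (x.1 i) i) β' x.2)
    (fun x => Pts_on hζ _ _ _ _ _) c₀ c₁ _ 0 ?_ ?_
  · intro v hv
    obtain ⟨hτ0, hρ1⟩ := hc₀ v hv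
    obtain ⟨π, hs'⟩ := p4 v hτ0
    refine GG_start Y hζ hn hs hC hw1 hw2 hΘ (π := π) hs' hSt' (hmat v hv)
      (Ξ' := fun i => aeval τ (x' i)) (fun i => ?_) hΘ'2 ?_ (fun i => ?_) (fun i => ?_) hβ'
      (fun i β hβ => hβA i v π hs' β hβ) l
    · rw [← ex i]
      exact at_aeval hτ0 _
    · rw [hΘ'p, ← ey, ← one_mul (y'.eval 0)]
      exact hρ1.mul (at_aeval hτ0 _)
    · rw [hw']
      exact hw₀1 i
    · rw [hw']
      exact hw₀2 i
  · intro v hv
    refine ⟨fun _ => 0, fun x => ?_, by simp⟩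
    rcases hc₁ v hv with ⟨hz, h0⟩ | ⟨hz, hτ⟩
    · exact Y.sing v S _ (Pts_on hζ _ _ _ _ _) (p6 hz v h0)
    · have hmo : ∀ i, Mo i = mo τ (A' i) (P' i) (M' i) (G' i) := fun i => by rw [hMo]
      have hcl : ∀ b i, Clo (D.EA S i) (mo τ (A' i) (P' i) (M' i) (G' i)) (aeval τ (x' i))
          (Θ' i) (w' b i) := by
        intro b i
        rw [← hmo]
        rw [hw']
        refine clo_om (w' := w₀ i) (hSt' i) (hmat v₀ hv₀ i) (hC false i).ne (hw₀1 i) (hw₀2 i)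
          (fun j => ?_) (hΘ'2 i) b
        rw [p5 hz]
        have h2 := (hs.nd i).hα j
        rw [D.cst_al s i j]
        exact (_root_.map_ne_zero _).2 h2
      rw [hMo]
      refine GG_end Y hζ hn hs (Ξ := Ξ) (Θ := Θ) (fun i => (hC false i).ne) hτ eA eP eM eG ex
        (fun hcon => z3 ⟨hz, hcon⟩) (p5 hz) (fun i => ?_) hcl hβ' x
      rw [← hmo]
      exact hSt' i

end Pool.Agent.KW
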