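import Pool.Agent.KW.RotK
import Pool.Agent.KW.InvU

/-!
# Families of configurations with moving frame
-/

set_option autoImplicit false

noncomputable section

namespace Pool.Agent.KW

open Pool.Agent.ZCyc Pool.Agent.TInf Polynomial
open Pool.Agent.VFP (Om tt)

universe u

variable {k : Type u} [Field k] [IsAlgClosed k] [CharZero k] {n : ℕ} {W : Type*} [AddCommGroup W]
  [Module ℚ W] {α B : Fin n → k} {f : (Fin n → EPt k) → W}

omit [IsAlgClosed k] in
private theorem V_neR {K : Type*} [Field K] [CharZero K] {s : Side K} (hs : s.Good) :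
    s.V ≠ 0 := by
  obtain ⟨h1, h2, h3⟩ := hs
  exact div_ne_zero (mul_ne_zero h2 h3) (mul_ne_zero two_ne_zero h1)

omit [IsAlgClosed k] in
private theorem V_at {v : Place k (Om k)} {s' : Side (Om k)} {s : Side k} (h : SAt v s' s)
    (hs : s.Good) : v.At s'.V s.V := by
  have h2 : v.At (2 : Om k) (2 : k) := by
    have := Place.at_const (v := v) (2 : k)
    rwa [map_ofNat] at this
  exact ((h.T.add h.p).mul (h.T.add h.m)).div (h2.mul h.T) (mul_ne_zero two_ne_zero hs.1)

/-- the points over `k` belonging to a class -/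
private theorem contr_points (hf : ClassFn α B f) {ζ : k} (hζ : IsPrimitiveRoot ζ 3)
    (h : NdU α B) (hn : 0 < n) {c : Cfg k n} (hc : c.Good α B) (l : ZMod 3)
    {v : Place k (Om k)} {ρ P : Om k} (hρ : ∀ x : k, ρ ≠ algebraMap k (Om k) x)
    {w : Fin n → Om k}
    (hw : ∀ j, w j ^ 6 = ((c.up.rotc (TInf.up B) ρ).side (TInf.up B) j).V)
    (hwP : ∏ j, w j = P) (hg : (c.up.rotc (TInf.up B) ρ).Good (TInf.up α) (TInf.up B))
    {x : W} (hx : Contr f ζ α B c l v ρ P x) :
    ∃ p : (Fin n → ZMod 3) → Fin n → EPt k,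
      (∀ a j, EVal v (epoint (algebraMap k (Om k) ζ) (TInf.up α j)
        ((c.up.rotc (TInf.up B) ρ).side (TInf.up B) j) (w j) (a j)) (p a j)) ∧
      ∑ a, (if ∑ j, a j = l then (1 : ℚ) else 0) • f (p a) = x := by
  have hζ3 : ζ ^ 3 = 1 := hζ.pow_eq_one
  have hζ3' : (algebraMap k (Om k) ζ) ^ 3 = 1 := by rw [← map_pow, hζ3, map_one]
  have hw0 : ∀ j, w j ≠ 0 := by
    intro j h0
    apply V_neR (hg.2 j)
    rw [← hw j, h0]
    norm_num
  have hα : ∀ j, v.At (TInf.up α j) (α j) := fun j => Place.at_const (α j)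
  -- all points exist
  have hex : ∀ (a : Fin n → ZMod 3) (j : Fin n), ∃ q : EPt k,
      EVal v (epoint (algebraMap k (Om k) ζ) (TInf.up α j)
        ((c.up.rotc (TInf.up B) ρ).side (TInf.up B) j) (w j) (a j)) q := by
    intro a j
    refine evalue_exists v (hα j).mem (Place.at_const (v := v) (B j)).mem
      (epoint_on (B := TInf.up B j) hζ3' (hg.2 j) ?_ ?_ (hw j) (a j))
    · simp only [Cfg.side]
      ring
    · have e1 : ((c.up.rotc (TInf.up B) ρ).side (TInf.up B) j).p -
          ((c.up.rotc (TInf.up B) ρ).side (TInf.up B) j).m =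
          2 * (c.up.rotc (TInf.up B) ρ).β j := by
        simp only [Cfg.side]
        ring
      rw [e1, mul_pow, hg.1 j]
      ring
  -- the bad case
  have hbad : (∃ j, w j ∉ v.ring ∨ v.At (w j) 0) →
      ∃ p : (Fin n → ZMod 3) → Fin n → EPt k,
      (∀ a j, EVal v (epoint (algebraMap k (Om k) ζ) (TInf.up α j)
        ((c.up.rotc (TInf.up B) ρ).side (TInf.up B) j) (w j) (a j)) (p a j)) ∧
      ∑ a, (if ∑ j, a j = l then (1 : ℚ) else 0) • f (p a) = 0 := by
    rintro ⟨j, hj⟩
    choose p hp using hex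
    refine ⟨p, hp, ?_⟩
    refine Finset.sum_eq_zero fun a _ => ?_
    have h1 : p a j = none :=
      evalue_unique (hp a j) (epoint_inf hζ3 (hα j) (h.hα j) (hw0 j) hj.symm (a j))
    rw [hf.inf (p a) j h1, smul_zero]
  cases hx with
  | bad hb =>
    apply hbad
    rcases hb with hb | hb
    · obtain ⟨j, hj⟩ := bad_V h hn hc hρ hb
      exact ⟨j, bad_w (hw j) hj⟩
    · rw [← hwP] at hb
      exact exists_bad_of_prod hb
  | good ρ' w' hρ' hρ0 hg' hw' hP' =>
    have hS : ∀ j, SAt v ((c.up.rotc (TInf.up B) ρ).side (TInf.up B) j)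
        ((c.rotc B ρ').side B j) := fun j => Cfg.rotc_at hc hρ' hρ0 hg' j
    choose u hu hu6 using fun j => w6_at (hw j) (V_at (hS j) (hg'.2 j))
    refine ⟨fun a j => epoint ζ (α j) ((c.rotc B ρ').side B j) (u j) (a j), fun a j => ?_, ?_⟩
    · exact epoint_val hζ3 (hα j) (hS j).p (hS j).m (hS j).T (hu j) (hg'.2 j) (hu6 j) (a j)
    · have hprod : ∏ j, u j = ∏ j, w' j := by
        have h1 : v.At (∏ j, w j) (∏ j, u j) := Place.At.prod fun j _ => hu j
        rw [hwP] at h1
        exact h1.unique hP'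
      have hw'0 : ∀ j, w' j ≠ 0 := by
        intro j h0
        apply V_neR (hg'.2 j)
        rw [← hw' j, h0]
        norm_num
      rw [← Sl_congr hf hζ ((c.rotc B ρ').side B) hw'0 (fun j => by rw [hu6, hw']) hprod l]
      unfold Sl
      refine Finset.sum_congr rfl fun a _ => ?_
      split_ifs
      · rw [one_smul]
      · rw [zero_smul]

/-- Comparison of the classes. For every `r` choose (`exists_w6`) sixth roots `w r j` over `Om k` of
the `V` of the sides of `c.up.rotc _ (ρ r)` with product `P r`. Use `hf.bridge` for the points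
`epoint _ _ _ (w r j) (a j)`, `a : Fin n → ZMod 3`, with weights `1` if `∑ a = l` and `0` otherwise. In
the good case the values are points `epoint` (`Cfg.rotc_at`, `epoint_val`, `w6_at`, `Sl_congr`), in the
bad case there is a `j` such that `w r j` has a zero or a pole (`bad_V`, `bad_w`,
`exists_bad_of_prod`), all points with this `j` have the value `∞` (`epoint_inf`), the other points have
values by `evalue_exists`, and the class is `0` by `hf.inf`. -/
theorem contr_family (hf : ClassFn α B f) {ζ : k} (hζ : IsPrimitiveRoot ζ 3) (h : NdU α B)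
    (hn : 0 < n) {c : Cfg k n} (hc : c.Good α B) (l : ZMod 3) {R : Type} [Fintype R]
    (ρ P : R → Om k) (hρ : ∀ r, ∀ x : k, ρ r ≠ algebraMap k (Om k) x)
    (hP : ∀ r, P r ^ 6 = ∏ j, ((c.up.rotc (TInf.up B) (ρ r)).side (TInf.up B) j).V)
    (c₀ c₁ : k) (C₀ C₁ : W)
    (h₀ : ∀ v : Place k (Om k), v.At (tt k) c₀ → ∃ x : R → W,
      (∀ r, Contr f ζ α B c l v (ρ r) (P r) (x r)) ∧ ∑ r, x r = C₀)
    (h₁ : ∀ v : Place k (Om k), v.At (tt k) c₁ → ∃ x : R → W,
      (∀ r, Contr f ζ α B c l v (ρ r) (P r) (x r)) ∧ ∑ r, x r = C₁) : C₀ = C₁ := by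
  have hζ3 : ζ ^ 3 = 1 := hζ.pow_eq_one
  have hζ3' : (algebraMap k (Om k) ζ) ^ 3 = 1 := by rw [← map_pow, hζ3, map_one]
  have hg : ∀ r, (c.up.rotc (TInf.up B) (ρ r)).Good (TInf.up α) (TInf.up B) :=
    fun r => Cfg.rotc_up_good h hc (hρ r)
  choose w hw hwP using fun r => exists_w6 hn (fun j => V_neR ((hg r).2 j)) (hP r)
  have key : ∀ (v : Place k (Om k)) (C : W), (∃ x : R → W,
      (∀ r, Contr f ζ α B c l v (ρ r) (P r) (x r)) ∧ ∑ r, x r = C) →
      ∃ p : R × (Fin n → ZMod 3) → Fin n → EPt k,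
        (∀ i j, EVal v (epoint (algebraMap k (Om k) ζ) (TInf.up α j)
          ((c.up.rotc (TInf.up B) (ρ i.1)).side (TInf.up B) j) (w i.1 j) (i.2 j)) (p i j)) ∧
        ∑ i, (if ∑ j, i.2 j = l then (1 : ℚ) else 0) • f (p i) = C := by
    rintro v C ⟨x, hx, hxC⟩
    choose p hp1 hp2 using fun r =>
      contr_points hf hζ h hn hc l (hρ r) (hw r) (hwP r) (hg r) (hx r)
    refine ⟨fun i => p i.1 i.2, fun i j => hp1 i.1 i.2 j, ?_⟩
    rw [Fintype.sum_prod_type, ← hxC]
    exact Finset.sum_congr rfl fun r _ => hp2 r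
  refine hf.bridge (I := R × (Fin n → ZMod 3))
    (fun i => if ∑ j, i.2 j = l then (1 : ℚ) else 0)
    (fun i j => epoint (algebraMap k (Om k) ζ) (TInf.up α j)
      ((c.up.rotc (TInf.up B) (ρ i.1)).side (TInf.up B) j) (w i.1 j) (i.2 j)) ?_ c₀ c₁ C₀ C₁
    (fun v hv => key v C₀ (h₀ v hv)) (fun v hv => key v C₁ (h₁ v hv))
  intro i j
  refine epoint_on (B := TInf.up B j) hζ3' ((hg i.1).2 j) ?_ ?_ (hw i.1 j) (i.2 j)
  · simp only [Cfg.side]
    ring
  · have e1 : ((c.up.rotc (TInf.up B) (ρ i.1)).side (TInf.up B) j).p -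
        ((c.up.rotc (TInf.up B) (ρ i.1)).side (TInf.up B) j).m =
        2 * (c.up.rotc (TInf.up B) (ρ i.1)).β j := by
      simp only [Cfg.side]
      ring
    rw [e1, mul_pow, (hg i.1).1 j]
    simp only [TInf.up]
    ring

end Pool.Agent.KW
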