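import Pool.Agent.TInf.RotFam
import Pool.Agent.TInf.RotProd
import Pool.Agent.KW.ConfU

/-!
# Change of the frame
-/

set_option autoImplicit false

noncomputable section

namespace Pool.Agent.KW

open Pool.Agent.ZCyc Pool.Agent.TInf Polynomial
open Pool.Agent.VFP (Om tt)

universe u

variable {k : Type u} [Field k] [IsAlgClosed k] [CharZero k] {n : ℕ} {α B : Fin n → k}

omit [IsAlgClosed k] in
/-- `rotL_good` -/
theorem Cfg.rotc_up_good (h : NdU α B) {c : Cfg k n} (hc : c.Good α B) {ρ : Om k}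
    (hρ : ∀ x : k, ρ ≠ algebraMap k (Om k) x) :
    (c.up.rotc (TInf.up B) ρ).Good (TInf.up α) (TInf.up B) := by
  refine Cfg.rotc_good (Cfg.up_good hc) ?_
  rw [Cfg.sides_up]
  exact rotL_good (Cfg.sides_good hc) (Cfg.sides_ndU h hc) hρ

/-- Go through the list of sides. If `ρ` is not in the ring then `T / ρ` has the value `0`, and `V` is not
in the ring; if `ρ` has the value `0` then `T / ρ` and `V` are not in the ring; if `ρ` has the value
`ρ' ≠ 0` and `T / ρ' + p = 0` or `T / ρ' + m = 0` then `V` has the value `0`; otherwise `s.next ρ` has the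
value `s.next ρ'`, go on. The list version: `l : List (Side k)` good and nondegenerate, `ρ` not
constant, not (`ρ` has a value `ρ' ≠ 0` with all sides in `rotL ρ' l` good): there is a side `s` in
`rotL ρ (l.map Side.up)` with `s.V ∉ v.ring` or `v.At s.V 0`, if `l ≠ []`. -/
theorem bad_V {v : Place k (Om k)} (h : NdU α B) (hn : 0 < n) {c : Cfg k n} (hc : c.Good α B)
    {ρ : Om k} (hρ : ∀ x : k, ρ ≠ algebraMap k (Om k) x) (hb : BadAt v α B c ρ) :
    ∃ j, ((c.up.rotc (TInf.up B) ρ).side (TInf.up B) j).V ∉ v.ring ∨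
      v.At ((c.up.rotc (TInf.up B) ρ).side (TInf.up B) j).V 0 := by
  have hl : c.sides B ≠ [] := by
    intro h0
    have := Cfg.length_sides B c
    rw [h0, List.length_nil] at this
    omega
  obtain ⟨s, hs, hs'⟩ := bad_V_list (v := v) hl (Cfg.sides_good hc) (Cfg.sides_ndU h hc) hρ (by
    rcases hb with hb | hb | ⟨ρ', h1, h2, h3⟩
    · exact Or.inl hb
    · exact Or.inr (Or.inl hb)
    · exact Or.inr (Or.inr ⟨ρ', h1, h2, fun h4 => h3 (Cfg.rotc_good hc h4)⟩))
  rw [← Cfg.sides_up, ← Cfg.sides_rotc] at hs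
  obtain ⟨j, rfl⟩ := Cfg.mem_sides hs
  exact ⟨j, hs'⟩

omit [IsAlgClosed k] in
/-- the state over `Om k` -/
private theorem st_up (l : List (Side k)) :
    (st (l.map Side.up)).a = (st l).a.map (algebraMap k (Om k)) ∧
    (st (l.map Side.up)).b = (st l).b.map (algebraMap k (Om k)) ∧
    (st (l.map Side.up)).c = (st l).c.map (algebraMap k (Om k)) ∧
    (st (l.map Side.up)).t = (st l).t.map (algebraMap k (Om k)) := by
  induction l with
  | nil => simp [Mq.one]
  | cons s l ih =>
    obtain ⟨h1, h2, h3, h4⟩ := ih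
    simp only [List.map_cons, st_cons, push, h1, h2, h3, h4, Side.up, Polynomial.map_add,
      Polynomial.map_sub, Polynomial.map_mul, Polynomial.map_neg, Polynomial.map_one,
      Polynomial.map_C, Polynomial.map_X, map_div₀, map_mul, map_add, map_sub, map_pow,
      map_ofNat, and_self]

omit [IsAlgClosed k] in
private theorem up_good {c : Cfg k n} (hc : c.Good α B) : c.up.Good (TInf.up α) (TInf.up B) := by
  have hinj := (algebraMap k (Om k)).injective
  refine ⟨fun j => ?_, fun j => ?_⟩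
  · change algebraMap k (Om k) (c.β j) ^ 2 = algebraMap k (Om k) (α j) ^ 3
    rw [← map_pow, hc.1 j, map_pow]
  · obtain ⟨h1, h2, h3⟩ := hc.2 j
    have e1 : (c.up.side (TInf.up B) j).T = algebraMap k (Om k) (c.side B j).T := rfl
    have e2 : (c.up.side (TInf.up B) j).p = algebraMap k (Om k) (c.side B j).p := by
      simp only [Cfg.side, Cfg.up, TInf.up, map_add, map_div₀, map_neg, map_ofNat]
    have e3 : (c.up.side (TInf.up B) j).m = algebraMap k (Om k) (c.side B j).m := by
      simp only [Cfg.side, Cfg.up, TInf.up, map_sub, map_div₀, map_neg, map_ofNat]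
    refine ⟨?_, ?_, ?_⟩
    · rw [e1]
      exact (map_ne_zero_iff _ hinj).2 h1
    · rw [e1, e2, ← map_add]
      exact (map_ne_zero_iff _ hinj).2 h2
    · rw [e1, e3, ← map_add]
      exact (map_ne_zero_iff _ hinj).2 h3

/-- the product of the `V` after the change of the frame, from `prod_VU` -/
theorem prod_V_rotc (h : NdU α B) {c : Cfg k n} (hc : c.Good α B) {ρ : Om k}
    (hρ : ∀ x : k, ρ ≠ algebraMap k (Om k) x) :
    ∏ j, ((c.up.rotc (TInf.up B) ρ).side (TInf.up B) j).V =
      algebraMap k (Om k) ((c.M B).a.eval 1) + (ρ * algebraMap k (Om k) ((c.M B).b.eval 1) -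
        ρ⁻¹ * algebraMap k (Om k) ((c.M B).c.eval 1)) / 2 := by
  have h0 : ρ ≠ 0 := by
    intro h1
    apply hρ 0
    rw [h1, map_zero]
  have hg := Cfg.rotc_up_good h hc hρ
  have hM := Cfg.rotc_M (up_good hc) h0 hg
  rw [prod_VU hg, hM]
  obtain ⟨h1, h2, h3, -⟩ := st_up (c.sides B)
  rw [← Cfg.sides_up, ← Cfg.M_eq, ← Cfg.M_eq] at h1 h2 h3
  simp only [Mq.rot, h1, h2, h3, eval_mul, eval_C, Polynomial.eval_one_map]

end Pool.Agent.KW
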